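import Pool.Agent.Y354.DC3.Stm3

/-! Project DC4: exchange for induced paths. -/

set_option autoImplicit false

open Finset
open scoped Classical

namespace Pool.Agent.Y657.DC4

open Pool.Agent.Y354.DC3

theorem I_and (p q : Prop) : I (p ∧ q) = I p * I q := by
  unfold I
  by_cases hp : p <;> by_cases hq : q <;> simp [hp, hq]

theorem I_congr {p q : Prop} (h : p ↔ q) : I p = I q := by
  rw [propext h]

theorem Ad_symm {V : Type} {N : V → V → V → Prop} (hN : Sy N) {k : ℕ} (x : Fin k → V) (v u : V) :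
    Ad N x v u ↔ Ad N x u v :=
  ⟨fun ⟨l, h⟩ => ⟨l, hN.1 _ _ _ h⟩, fun ⟨l, h⟩ => ⟨l, hN.1 _ _ _ h⟩⟩

/-- the sum over the pairs with the last vertex chosen -/
noncomputable def G {V : Type} [Fintype V] (μ : V → ℝ) (N : V → V → V → Prop) {k : ℕ}
    (y : Fin k → V) (w : V) : ℝ :=
  ∑ v, ∑ u, μ v * μ u * I ((Al N y v ∧ ¬ Ad N y w v) ∧ (Al N y u ∧ Ad N y w u ∧ Ad N y v u))

theorem sum_bb (hAL : S_AL) {V : Type} [Fintype V] (μ : V → ℝ) (N : V → V → V → Prop) (hN : Sy N)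
    (k : ℕ) (y : Fin (k + 1) → V) :
    ∑ v, μ v * I (Al N y v) * ∑ u, μ u * (bb N y v u : ℝ) = ∑ j, G μ N (rm y j) (y j) := by
  have h1 : ∀ v u, (bb N y v u : ℝ) = ∑ j, I (Al N (rm y j) u ∧ Ad N (rm y j) (y j) u ∧
      Ad N (rm y j) v u) := by
    intro v u
    unfold bb I
    rw [card_filter]
    push_cast
    refine sum_congr rfl fun j _ => ?_
    by_cases h : Al N (rm y j) u ∧ Ad N (rm y j) (y j) u ∧ Ad N (rm y j) v u
    · rw [if_pos h, if_pos h]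
    · rw [if_neg h, if_neg h]
  simp_rw [h1, mul_sum]
  have h2 : ∑ v, ∑ u, ∑ j, μ v * I (Al N y v) * (μ u * I (Al N (rm y j) u ∧
      Ad N (rm y j) (y j) u ∧ Ad N (rm y j) v u)) = ∑ v, ∑ j, ∑ u, μ v * I (Al N y v) *
      (μ u * I (Al N (rm y j) u ∧ Ad N (rm y j) (y j) u ∧ Ad N (rm y j) v u)) :=
    sum_congr rfl fun v _ => sum_comm
  rw [h2, sum_comm]
  refine sum_congr rfl fun j _ => ?_
  unfold G
  refine sum_congr rfl fun v _ => sum_congr rfl fun u _ => ?_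
  have h3 := I_congr ((hAL V N hN k j y).2.1 v)
  rw [h3, I_and (Al N (rm y j) v ∧ ¬ Ad N (rm y j) (y j) v)]
  ring

theorem sum_G {V : Type} [Fintype V] (μ : V → ℝ) (N : V → V → V → Prop) (hN : Sy N)
    (k : ℕ) (y : Fin k → V) :
    ∑ w, μ w * I (Al N y w) * G μ N y w = ∑ w, ∑ v, ∑ u, μ w * μ v * μ u *
      I (Al N y w ∧ Al N y v ∧ Al N y u ∧ Ad N y w v ∧ Ad N y w u ∧ ¬ Ad N y v u) := by
  have h1 : ∀ w v u, μ w * I (Al N y w) * (μ v * μ u * I ((Al N y v ∧ ¬ Ad N y w v) ∧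
      (Al N y u ∧ Ad N y w u ∧ Ad N y v u))) = μ u * μ w * μ v *
      I (Al N y u ∧ Al N y w ∧ Al N y v ∧ Ad N y u w ∧ Ad N y u v ∧ ¬ Ad N y w v) := by
    intro w v u
    have h2 : I (Al N y u ∧ Al N y w ∧ Al N y v ∧ Ad N y u w ∧ Ad N y u v ∧ ¬ Ad N y w v) =
        I (Al N y w) * I ((Al N y v ∧ ¬ Ad N y w v) ∧ (Al N y u ∧ Ad N y w u ∧ Ad N y v u)) := by
      rw [← I_and]
      apply I_congr
      rw [Ad_symm hN y u w, Ad_symm hN y u v]
      tauto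
    rw [h2]
    ring
  unfold G
  simp_rw [mul_sum, h1]
  have h3 : ∑ w, ∑ v, ∑ u, μ u * μ w * μ v *
      I (Al N y u ∧ Al N y w ∧ Al N y v ∧ Ad N y u w ∧ Ad N y u v ∧ ¬ Ad N y w v) =
      ∑ w, ∑ u, ∑ v, μ u * μ w * μ v *
      I (Al N y u ∧ Al N y w ∧ Al N y v ∧ Ad N y u w ∧ Ad N y u v ∧ ¬ Ad N y w v) :=
    sum_congr rfl fun w _ => sum_comm
  rw [h3, sum_comm]

/-- exchange for induced paths -/
theorem s_bb : S_AL → S_EX → S_BB := by
  intro hAL hEX V _ μ N hN k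
  have h1 : E μ N (k + 1) (fun y => ∑ v, μ v * I (Al N y v) * ∑ u, μ u * (bb N y v u : ℝ)) =
      ∑ j : Fin (k + 1), E μ N (k + 1) (fun y => G μ N (rm y j) (y j)) := by
    unfold E
    rw [sum_comm]
    refine sum_congr rfl fun y _ => ?_
    have h0 := sum_bb hAL μ N hN k y
    beta_reduce
    rw [h0, mul_sum]
  rw [h1]
  have h2 : ∀ j : Fin (k + 1), E μ N (k + 1) (fun y => G μ N (rm y j) (y j)) = HC μ N k := by
    intro j
    rw [hEX V μ N hN k j (G μ N)]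
    unfold HC
    congr 1
    funext y
    exact sum_G μ N hN k y
  rw [sum_congr rfl fun j _ => h2 j, sum_const, card_univ, Fintype.card_fin, nsmul_eq_mul]
  push_cast
  ring

end Pool.Agent.Y657.DC4
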